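import Pool.Agent.Run7.h966.FD.G3
import Pool.Agent.Run7.h966.FD.C1

/-!
# Artin's holomorphy conjecture: a criterion by functions built from finitely many primes

Let `K` be a number field, `L/K` finite Galois, `χ` a real-valued character of `Gal(L/K)` (for example an irreducible
self-dual one).  The Artin L-function is, over the rational primes,

`L(s, χ) = ∏_p P_p(p^(-s))⁻¹`, `P_p(T) = ∏_{v | p} det(1 - Frob_v T^(f_v) | V_χ^(I_v))`,

with `P_p ∈ ℝ[T]` of degree at most `n = χ(1) [K : ℚ]` and with all roots of absolute value one; `𝔊(s) =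
Γ_ℝ(s)^a Γ_ℝ(s+1)^b ((2π)^(-s) Γ(s))^c` and `A = A_χ` as in the problem, `a + b + 2c = n`, `r = δ(χ)`.  For a general
real-valued `χ` the holomorphy of the completed L-function is not known.  Let

`completed(s) = (s (s - 1))^r A^(s/2) 𝔊(s) L(s, χ)`, `Re s > 1`.

For `a > 0` let `W a` be Weil's quadratic form for `χ` on the functions `f` supported in `[-a, a]`,

`W a f = 2 r Re(F(-i/2) conj F(i/2)) + (1/2π) ∫ (log A + 2 Re (𝔊'/𝔊)(1/2 + i t)) |F(t)|² dt`
`   - 2 Re ∑_{n = p^k ≤ e^(2 a)} log p · tr(Frob_p^k) n^(-1/2) ∫ f(x + log n) conj f(x) dx`,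

`F(z) = ∫ f(x) e^(i z x) dx`.  It contains the gamma factor, the conductor and the local polynomials at the primes
`p ≤ e^(2 a)` only, and no continuation of `L(s, χ)` is used.  We minimise it relative to the mass `∫_S |F(t)|² dt` on a
window `S` (compact, `-S = S`, with interior points).

RESULT.
1. For every window `S` and every `a > 0` the Fourier transforms of the minimisers are the multiples `p E_a` of one
   entire function `E_a` by the polynomials `p` of degree less than `d_a`; `E_a` is real on the real line, even or odd,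
   unique up to a factor, and ALL ITS ZEROS ARE REAL AND SIMPLE.
2. The completed L-function extends to an entire function `Λ` (of finite order, with `Λ(s) = ± Λ(1 - s)`; by Brauer's
   theorem these two properties are automatic), all zeros of `Λ` are simple, on the line `Re s = 1/2`, and none is
   `1/2 + i t` with `t ∈ S`, IF AND ONLY IF for every real `y ≥ 2`
   `E_a(-i y) / E_a(-2 i) → completed(1/2 + y) / completed(1/2 + 2)`, `a → ∞`
   (values of the Euler product for `Re s > 1`; the left side is a quotient of integrals `∫ f(x) e^(y x) dx` for a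
   minimiser `f`), and for `t ∈ S` the quotient `E_a(t) / E_a(-2 i)` does not tend to zero.
3. So Artin's conjecture for `χ`, the Riemann hypothesis for `Λ` and the simplicity of its zeros hold if and only if
   this convergence holds for some window; in particular the convergence implies the holomorphy.
-/

set_option autoImplicit false
set_option maxHeartbeats 2000000
set_option linter.unusedVariables false

namespace Pool.Agent.Results.MP_d2121a_nt.ContinuationCriterion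

open Complex Polynomial MeasureTheory Filter Topology
open scoped ComplexConjugate
open Pool.Agent.Run7.h336.CB.S (F Window Describes)

/-- What enters of a real-valued character `χ` of `Gal(L/K)` in its completed Artin L-function. -/
structure ArtinData where
  /-- the degree `χ(1) [K : ℚ]` -/
  n : ℕ
  /-- `a_χ = ∑_{ν real} χ_ν^+(1)` -/
  a : ℕ
  /-- `b_χ = ∑_{ν real} χ_ν^-(1)` -/
  b : ℕ
  /-- `c_χ = χ(1) r_2(K)` -/
  c : ℕ
  /-- `P_p(T) = ∏_{v | p} det(1 - Frob_v T^(f_v) | V^(I_v))`, which is real because `χ` is real-valued -/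
  P : ℕ → ℝ[X]
  n_pos : 0 < n
  abc : a + b + 2 * c = n
  const : ∀ p : ℕ, p.Prime → (P p).coeff 0 = 1
  degree : ∀ p : ℕ, p.Prime → (P p).natDegree ≤ n
  roots : ∀ p : ℕ, p.Prime → ∀ z : ℂ, aeval z (P p) = 0 → ‖z‖ = 1

namespace ArtinData

variable (V : ArtinData)

/-- the Artin L-function in the half-plane of convergence -/
noncomputable def L (s : ℂ) : ℂ := ∏' p : Nat.Primes, (aeval (((p : ℕ) : ℂ) ^ (-s)) (V.P p))⁻¹

/-- the gamma factor `𝔊(s) = Γ_ℝ(s)^a Γ_ℝ(s+1)^b ((2π)^(-s) Γ(s))^c` -/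
noncomputable def gammaFactor (s : ℂ) : ℂ :=
  Gammaℝ s ^ V.a * Gammaℝ (s + 1) ^ V.b * ((2 * (Real.pi : ℂ)) ^ (-s) * Gamma s) ^ V.c

/-- The trace of `Frob_p^k` on the invariants of inertia of the representation induced to `ℚ`, at `n = p^k`: the sum of
`z^(-k)` over the complex roots `z` of `P_p`, with multiplicities; zero if `n` is not a power of a prime. -/
noncomputable def trace (n : ℕ) : ℂ :=
  if IsPrimePow n then (((V.P n.minFac).map (algebraMap ℝ ℂ)).roots.map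
    fun z => (z ^ (n.factorization n.minFac))⁻¹).sum else 0

/-- the completed L-function without its poles, `(s (s - 1))^r A^(s/2) 𝔊(s) L(s, χ)`, in the half-plane of
convergence of the Euler product -/
noncomputable def completed (r : ℕ) (A : ℝ) (s : ℂ) : ℂ :=
  (s * (s - 1)) ^ r * (V.L s * V.gammaFactor s * (A : ℂ) ^ (s / 2))

/-- Artin's conjecture for `χ`: `Λ` is entire, of finite order, `Λ(s) = ± Λ(1 - s)`, and it agrees with `completed`
on a half-plane. -/
structure Continued (r : ℕ) (A : ℝ) (Λ : ℂ → ℂ) : Prop where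
  entire : Differentiable ℂ Λ
  order : ∃ c ρ : ℝ, ∀ s : ℂ, ‖Λ s‖ ≤ Real.exp (c * (1 + ‖s‖) ^ ρ)
  fe : (∀ s : ℂ, Λ (1 - s) = Λ s) ∨ ∀ s : ℂ, Λ (1 - s) = -Λ s
  eq : ∃ σ : ℝ, ∀ s : ℂ, σ ≤ s.re → Λ s = V.completed r A s

/-- Artin's conjecture holds for `χ` with `Λ`, and all zeros of `Λ` are simple and on the critical line -/
structure Simple (r : ℕ) (A : ℝ) (Λ : ℂ → ℂ) : Prop extends V.Continued r A Λ where
  line : ∀ s, Λ s = 0 → s.re = 1 / 2
  simple : ∀ s, Λ s = 0 → deriv Λ s ≠ 0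

/-- `E_a(-i y) / E_a(-2 i) → completed(1/2 + y) / completed(1/2 + 2)` for real `y ≥ 2`, and `E_a(t) / E_a(-2 i)` does
not tend to zero for `t ∈ S` -/
def HalfLine (r : ℕ) (A : ℝ) (S : Set ℝ) (E : ℝ → ℂ → ℂ) : Prop :=
  (∀ y : ℝ, 2 ≤ y → Tendsto (fun a => E a (-(I * y)) / E a (-(I * 2))) atTop
    (𝓝 (V.completed r A (1 / 2 + y) / V.completed r A (1 / 2 + 2)))) ∧
  ∀ t : ℝ, t ∈ S → ¬ Tendsto (fun a => E a t / E a (-(I * 2))) atTop (𝓝 0)

/-- Weil's quadratic form of `L(s, χ)` for functions supported in `[-a, a]`: the poles, the gamma factor and the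
conductor `A`, and the powers `n ≤ exp (2 a)` of primes. -/
noncomputable def W (r : ℕ) (A : ℝ) (a : ℝ) (f : ℝ → ℂ) : ℝ :=
  2 * r * (F f (-(I / 2)) * conj (F f (I / 2))).re +
    1 / (2 * Real.pi) * (∫ t : ℝ, (Real.log A + 2 * (logDeriv V.gammaFactor (1 / 2 + I * t)).re) * ‖F f t‖ ^ 2) -
    2 * (∑ n ∈ Finset.Icc 1 ⌊Real.exp (2 * a)⌋₊, ArithmeticFunction.vonMangoldt n * V.trace n /
      (((n : ℝ) ^ (1 / 2 : ℝ) : ℝ) : ℂ) * ∫ x : ℝ, f (x + Real.log n) * conj (f x)).re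

end ArtinData

open Y23.G Y23.G.CB Run7.h833.GW Pool.Agent.TH839.UH Pool.Agent.TH839.NA Run7.h966.FD

/-- the archimedean density -/
lemma arch {m : ℕ} {A : ℝ} (hA : 1 ≤ A) {a' : Fin m → ℂ} (ha : ∀ j, 0 ≤ (a' j).re) {γ : ℂ → ℂ} {c : ℂ}
    (hγ : ∀ z : ℂ, (∏ j, Gammaℝ (z + a' j)) = γ (z + c)) (t : ℝ) :
    2 * (H353.E.gaD A (fun j => -a' j) (⟨1 / 2, t⟩ : ℂ)).re =
      Real.log A + 2 * (logDeriv γ (1 / 2 + c + I * t)).re := by
  set s : ℂ := ⟨1 / 2, t⟩ with hs
  have hre : ∀ j, 0 < (s - (fun j => -a' j) j).re := by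
    intro j
    have := ha j
    simp only [sub_neg_eq_add, Complex.add_re]
    show 0 < (1 / 2 : ℝ) + (a' j).re
    linarith
  have h1 := H353.E.gaf_der (N := 1) one_pos hre
  have e1 : ∀ z : ℂ, H353.E.gaf 1 (fun j => -a' j) z = γ (z + c) := by
    intro z
    rw [← hγ]
    unfold H353.E.gaf
    simp only [sub_neg_eq_add, Complex.ofReal_one, Complex.one_cpow, one_mul]
  have e2 : H353.E.gaf 1 (fun j => -a' j) = fun z => γ (z + c) := funext e1
  rw [e2] at h1
  have h2 : HasDerivAt γ (γ (s + c) * H353.E.gaD 1 (fun j => -a' j) s) (s + c) := by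
    have h3 : HasDerivAt (fun w : ℂ => w - c) 1 (s + c) := (hasDerivAt_id _).sub_const c
    have h4 : HasDerivAt (fun z => γ (z + c)) (γ (s + c) * H353.E.gaD 1 (fun j => -a' j) s) ((s + c) - c) := by
      rw [add_sub_cancel_right]
      exact h1
    have h5 := HasDerivAt.comp (s + c) h4 h3
    rw [mul_one] at h5
    refine h5.congr_of_eventuallyEq (Eventually.of_forall fun w => ?_)
    simp
  have hne : γ (s + c) ≠ 0 := by
    rw [← hγ]
    refine Finset.prod_ne_zero_iff.2 fun j _ => Complex.Gammaℝ_ne_zero_of_re_pos ?_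
    have := hre j
    simpa using this
  have h3 : logDeriv γ (s + c) = H353.E.gaD 1 (fun j => -a' j) s := by
    rw [logDeriv_apply, h2.deriv, mul_div_cancel_left₀ _ hne]
  have e3 : (1 / 2 + c + I * t : ℂ) = s + c := by
    rw [hs]
    have : (⟨1 / 2, t⟩ : ℂ) = 1 / 2 + I * t := by
      apply Complex.ext <;> simp
    rw [this]
    ring
  rw [e3, h3]
  unfold H353.E.gaD
  simp only [Real.log_one, zero_div, Complex.ofReal_zero, zero_add, Complex.add_re, Complex.ofReal_re]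
  ring

/-- windows exist -/
lemma exists_window {X : ℂ → ℂ} (hX : Differentiable ℂ X) (hne : ∃ z, X z ≠ 0) :
    ∃ S : Set ℝ, Window S ∧ ∀ t ∈ S, X t ≠ 0 := by
  obtain ⟨z1, hz1⟩ := hne
  have hGa : AnalyticOnNhd ℂ X Set.univ := fun z _ => hX.analyticAt z
  have hiso : ∀ᶠ z in 𝓝[≠] (0 : ℂ), X z ≠ 0 := by
    rcases (hX.analyticAt 0).eventually_eq_zero_or_eventually_ne_zero with h | h
    · exact absurd (hGa.eqOn_zero_of_preconnected_of_eventuallyEq_zero
        isPreconnected_univ (Set.mem_univ 0) h (Set.mem_univ z1)) hz1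
    · exact h
  rw [eventually_nhdsWithin_iff, Metric.eventually_nhds_iff] at hiso
  obtain ⟨ε, hε, hε2⟩ := hiso
  refine ⟨Set.Icc (-(ε / 2)) (-(ε / 3)) ∪ Set.Icc (ε / 3) (ε / 2), ⟨isCompact_Icc.union isCompact_Icc, fun t ht => ?_, ?_⟩,
    fun t ht => ?_⟩
  · rcases ht with ht | ht
    · exact Or.inr ⟨by linarith [ht.2], by linarith [ht.1]⟩
    · exact Or.inl ⟨by linarith [ht.2], by linarith [ht.1]⟩
  · refine ⟨5 * ε / 12, interior_mono Set.subset_union_right ?_⟩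
    rw [interior_Icc]
    constructor <;> linarith
  · have h1 : |t| < ε ∧ t ≠ 0 := by
      rcases ht with ht | ht
      · have h2 := ht.1
        have h3 := ht.2
        refine ⟨by rw [abs_lt]; constructor <;> linarith, by intro h; rw [h] at h3; linarith⟩
      · have h2 := ht.1
        have h3 := ht.2
        refine ⟨by rw [abs_lt]; constructor <;> linarith, by intro h; rw [h] at h2; linarith⟩
    refine hε2 ?_ ?_
    · rw [dist_zero_right, Complex.norm_real, Real.norm_eq_abs]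
      exact h1.1
    · show (t : ℂ) ≠ 0
      exact_mod_cast h1.2



variable {V : ArtinData} {r : ℕ} {A : ℝ} {Λ : ℂ → ℂ}

/-- the shifts of the gamma factors -/
noncomputable def shifts (V : ArtinData) : List ℂ :=
  List.replicate V.a 0 ++ List.replicate V.b 1 ++ (List.replicate V.c 0 ++ List.replicate V.c 1)

lemma shifts_mem {V : ArtinData} {c : ℂ} (hc : c ∈ shifts V) : c = 0 ∨ c = 1 := by
  unfold shifts at hc
  rcases List.mem_append.1 hc with hc | hc
  · rcases List.mem_append.1 hc with hc | hc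
    · exact Or.inl (List.eq_of_mem_replicate hc)
    · exact Or.inr (List.eq_of_mem_replicate hc)
  · rcases List.mem_append.1 hc with hc | hc
    · exact Or.inl (List.eq_of_mem_replicate hc)
    · exact Or.inr (List.eq_of_mem_replicate hc)

lemma shifts_length (V : ArtinData) : (shifts V).length = V.n := by
  unfold shifts
  simp only [List.length_append, List.length_replicate]
  have := V.abc
  omega

/-- the data in the normalised variable -/
structure Data (V : ArtinData) (a' : Fin V.n → ℂ) (α : Nat.Primes → Fin V.n → ℂ) : Prop where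
  bd : ∀ p j, ‖α p j‖ ≤ ((p : ℕ) : ℝ) ^ (1 / 2 : ℝ)
  sh : ∀ j, 0 ≤ (a' j).re ∧ (a' j).im = 0
  ga : ∀ z : ℂ, (∏ j, Gammaℝ (z + a' j)) = 2 ^ V.c * V.gammaFactor z
  tr : ∀ (p : Nat.Primes) (k : ℕ), ∑ j, α p j ^ (k + 1) =
        (((V.P p).map (algebraMap ℝ ℂ)).roots.map fun z => (z ^ (k + 1))⁻¹).sum
  eu : ∀ z : ℂ, V.L z = EP.E α z

lemma data (V : ArtinData) : ∃ (a' : Fin V.n → ℂ) (α : Nat.Primes → Fin V.n → ℂ), Data V a' α := by
  have hroots : ∀ p : Nat.Primes, ∃ α : Fin V.n → ℂ,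
      (∀ z : ℂ, ((V.P p).map (algebraMap ℝ ℂ)).eval z = ∏ j, (1 - α j * z)) ∧
      ∀ j, ‖α j‖ ≤ ((p : ℕ) : ℝ) ^ (1 / 2 : ℝ) := by
    intro p
    have hp1 : (1 : ℝ) ≤ ((p : ℕ) : ℝ) := by exact_mod_cast p.2.one_le
    obtain ⟨α, h1, h2⟩ := Run7.h966.FD.Coh.roots V.n ((V.P p).map (algebraMap ℝ ℂ)) (by
      rw [Polynomial.coeff_map, V.const p p.2, map_one]) ((Polynomial.natDegree_map_le).trans (V.degree p p.2))
    refine ⟨α, h1, fun j => ?_⟩
    have h5 : (1 : ℝ) ≤ ((p : ℕ) : ℝ) ^ (1 / 2 : ℝ) := Real.one_le_rpow hp1 (by norm_num)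
    rcases h2 j with h3 | ⟨h3, h4⟩
    · rw [h3, norm_zero]
      linarith
    · rw [Polynomial.eval_map, ← Polynomial.aeval_def] at h4
      have h6 := V.roots p p.2 _ h4
      rw [norm_inv, inv_eq_one] at h6
      rw [h6]
      exact h5
  choose α hα1 hα2 using hroots
  have hlen := shifts_length V
  obtain ⟨l, hl⟩ : ∃ l : List ℂ, l = shifts V := ⟨_, rfl⟩
  have hm : l.length = V.n := by rw [hl, hlen]
  refine ⟨fun j => l.get (Fin.cast hm.symm j), α, hα2, fun j => ?_, fun z => ?_, fun p k => ?_, fun z => ?_⟩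
  · have h1 : l.get (Fin.cast hm.symm j) ∈ shifts V := by rw [← hl]; exact List.get_mem _ _
    rcases shifts_mem h1 with h | h
    · rw [h]; simp
    · rw [h]; simp
  · have h1 : (∏ j : Fin V.n, Gammaℝ (z + l.get (Fin.cast hm.symm j))) = ∏ j : Fin l.length, Gammaℝ (z + l.get j) :=
      Fintype.prod_equiv (finCongr hm.symm) _ _ fun j => rfl
    rw [h1, Pool.Agent.W355.UN.prod_get l (fun c : ℂ => Gammaℝ (z + c)), hl]
    unfold shifts ArtinData.gammaFactor
    simp only [List.map_append, List.prod_append, List.map_replicate, List.prod_replicate, add_zero]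
    rw [← mul_pow, Complex.Gammaℝ_mul_Gammaℝ_add_one, Complex.Gammaℂ_def, mul_assoc 2, mul_pow 2]
    ring
  · exact (Run7.h966.FD.Coh.root_sum (hα1 p) k)
  · unfold ArtinData.L EP.E
    refine tprod_congr fun p => ?_
    rw [Polynomial.aeval_def, ← Polynomial.eval_map, hα1, ← Finset.prod_inv_distrib]

/-- the power sums are real -/
lemma roots_real (P : ℝ[X]) (k : ℕ) :
    ((((P.map (algebraMap ℝ ℂ)).roots.map fun z => (z ^ (k + 1))⁻¹).sum)).im = 0 := by
  rw [← Complex.conj_eq_iff_im]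
  set Q := P.map (algebraMap ℝ ℂ) with hQ
  have h1 : Q.map (starRingEnd ℂ) = Q := by
    rw [hQ, Polynomial.map_map]
    congr 1
    ext x
    simp
  have h2 : Q.roots.map (starRingEnd ℂ) = Q.roots := by
    rw [← (IsAlgClosed.splits Q).roots_map (starRingEnd ℂ), h1]
  rw [map_multiset_sum, Multiset.map_map]
  conv_rhs => rw [← h2, Multiset.map_map]
  congr 1
  refine Multiset.map_congr rfl fun z _ => ?_
  simp

variable {a' : Fin V.n → ℂ} {α : Nat.Primes → Fin V.n → ℂ}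

lemma cE_real (h : Data V a' α) (n : ℕ) : (cE α n).im = 0 := by
  by_cases hpp : IsPrimePow n
  · obtain ⟨p, k, hp, hk, rfl⟩ := (isPrimePow_nat_iff n).1 hpp
    obtain ⟨j, rfl⟩ : ∃ j, k = j + 1 := ⟨k - 1, by omega⟩
    have h1 : cE α (p ^ (j + 1)) = ∑ l, α ⟨p, hp⟩ l ^ (j + 1) := cE_pow α ⟨p, hp⟩ j
    rw [h1, h.tr ⟨p, hp⟩ j, roots_real]
  · have h1 : cE α n = 0 := dif_neg hpp
    rw [h1, Complex.zero_im]

/-- Weil's form by its normalised formula -/
lemma W_eq (hA : 1 ≤ A) (h : Data V a' α) (a : ℝ) (f : ℝ → ℂ) :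
    V.W r A a f = WF V.n r A a' (cE α) a f := by
  have e1 : F f (-(I / 2)) = Y23.TT f (1 / 2) := by
    rw [Run7.h336.CB.S.F_eq]
    congr 1
    linear_combination (-1 / 2 : ℂ) * Complex.I_mul_I
  have e2 : F f (I / 2) = Y23.TT f (-(1 / 2)) := by
    rw [Run7.h336.CB.S.F_eq]
    congr 1
    linear_combination (1 / 2 : ℂ) * Complex.I_mul_I
  have e3 : ∀ t : ℝ, Real.log A + 2 * (logDeriv V.gammaFactor (1 / 2 + I * t)).re =
      2 * (H353.E.gaD A (fun j => -a' j) (⟨1 / 2, t⟩ : ℂ)).re := by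
    intro t
    have h1 := arch hA (fun j => (h.sh j).1) (γ := fun z => 2 ^ V.c * V.gammaFactor z) (c := 0)
      (fun z => by rw [h.ga, add_zero]) t
    rw [h1, add_zero, logDeriv_const_mul _ _ (pow_ne_zero _ two_ne_zero)]
  have e4 : ∀ n ∈ Finset.Icc 1 ⌊Real.exp (2 * a)⌋₊,
      ((ArithmeticFunction.vonMangoldt n : ℝ) : ℂ) * V.trace n / (((n : ℝ) ^ (1 / 2 : ℝ) : ℝ) : ℂ) *
        (∫ x : ℝ, f (x + Real.log n) * conj (f x)) =
      (((ArithmeticFunction.vonMangoldt n : ℝ) : ℂ) * (cE α n * pw (-(1 / 2)) n)) *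
        ∫ x : ℝ, f (x + Real.log n) * conj (f x) := by
    intro n hn
    have hn1 := (Finset.mem_Icc.1 hn).1
    have hn0 : (0 : ℝ) < n := by exact_mod_cast hn1
    congr 1
    by_cases hpp : IsPrimePow n
    · obtain ⟨p, k, hp, hk, rfl⟩ := (isPrimePow_nat_iff n).1 hpp
      obtain ⟨j, rfl⟩ : ∃ j, k = j + 1 := ⟨k - 1, by omega⟩
      have h1 : cE α (p ^ (j + 1)) = ∑ l, α ⟨p, hp⟩ l ^ (j + 1) := cE_pow α ⟨p, hp⟩ j
      have h2 := h.tr ⟨p, hp⟩ j
      have h3 : (p ^ (j + 1)).minFac = p := hp.pow_minFac (Nat.succ_ne_zero j)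
      have h4 : (p ^ (j + 1)).factorization p = j + 1 := by
        rw [hp.factorization_pow, Finsupp.single_eq_same]
      have h5 : V.trace (p ^ (j + 1)) = (((V.P p).map (algebraMap ℝ ℂ)).roots.map
          fun z => (z ^ (j + 1))⁻¹).sum := by
        unfold ArtinData.trace
        rw [if_pos hpp, h3, h4]
      rw [h1, h2, h5]
      unfold TH839.NA.pw
      rw [div_eq_mul_inv, ← Complex.ofReal_inv, Real.rpow_neg hn0.le]
      ring
    · have h1 : cE α n = 0 := dif_neg hpp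
      have h2 : V.trace n = 0 := if_neg hpp
      rw [h1, h2]
      simp
  unfold ArtinData.W WF
  rw [Finset.sum_congr rfl e4]
  simp only [e1, e2, Run7.h336.CB.S.F_real, e3]

/-- the completed Euler product in the normalised form -/
lemma PP_eq (h : Data V a' α) {s : ℂ} (hs : 7 / 4 ≤ s.re) :
    PP V.n r A a' (bR (cE α)) s = 2 ^ V.c * V.completed r A s := by
  unfold PP ArtinData.completed
  rw [h.ga, h.eu, E_eq h.bd hs]
  ring

lemma re_half {y : ℝ} (hy : 2 ≤ y) : 7 / 4 ≤ (1 / 2 + (y : ℂ)).re := by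
  rw [Complex.add_re, Complex.ofReal_re]
  norm_num
  linarith

lemma halfLine_iff (h : Data V a' α) {S : Set ℝ} {E : ℝ → ℂ → ℂ} :
    V.HalfLine r A S E ↔ Run7.h966.FD.HalfLine E S (PP V.n r A a' (bR (cE α))) := by
  have h2c : (2 : ℂ) ^ V.c ≠ 0 := pow_ne_zero _ two_ne_zero
  have e : ∀ y : ℝ, 2 ≤ y → PP V.n r A a' (bR (cE α)) (1 / 2 + y) / PP V.n r A a' (bR (cE α)) (1 / 2 + 2) =
      V.completed r A (1 / 2 + y) / V.completed r A (1 / 2 + 2) := by
    intro y hy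
    have h2 := PP_eq (r := r) (A := A) h (re_half (y := 2) le_rfl)
    rw [Complex.ofReal_ofNat] at h2
    rw [PP_eq h (re_half hy), h2, mul_div_mul_left _ _ h2c]
  unfold ArtinData.HalfLine Run7.h966.FD.HalfLine
  refine and_congr (forall₂_congr fun y hy => ?_) Iff.rfl
  rw [e y hy]

lemma cond (h : Data V a' α) : (∀ j, -1 / 2 < (a' j).re) ∧ (∀ j, (a' j).im = 0) :=
  ⟨fun j => by have := (h.sh j).1; linarith, fun j => (h.sh j).2⟩

/-- multiplying a function of finite order by a power of two -/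
lemma order_two {X : ℂ → ℂ} (κ : ℂ) (hord : ∃ A ρ : ℝ, ∀ s : ℂ, ‖X s‖ ≤ Real.exp (A * (1 + ‖s‖) ^ ρ)) :
    ∃ A ρ : ℝ, ∀ s : ℂ, ‖κ * X s‖ ≤ Real.exp (A * (1 + ‖s‖) ^ ρ) := by
  obtain ⟨A, ρ, h⟩ := hord
  refine ⟨‖κ‖ + |A|, |ρ|, fun s => ?_⟩
  have h1 : (1 : ℝ) ≤ 1 + ‖s‖ := by linarith [norm_nonneg s]
  have h2 : 1 ≤ (1 + ‖s‖) ^ |ρ| := Real.one_le_rpow h1 (abs_nonneg ρ)
  have h3 : A * (1 + ‖s‖) ^ ρ ≤ |A| * (1 + ‖s‖) ^ |ρ| :=
    mul_le_mul (le_abs_self A) (Real.rpow_le_rpow_of_exponent_le h1 (le_abs_self ρ))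
      (Real.rpow_nonneg (by linarith) _) (abs_nonneg A)
  have h4 : ‖κ‖ ≤ Real.exp (‖κ‖ * (1 + ‖s‖) ^ |ρ|) := by
    have h5 := Real.add_one_le_exp (‖κ‖ * (1 + ‖s‖) ^ |ρ|)
    have h6 : ‖κ‖ ≤ ‖κ‖ * (1 + ‖s‖) ^ |ρ| := le_mul_of_one_le_right (norm_nonneg κ) h2
    linarith
  rw [norm_mul, add_mul, Real.exp_add]
  exact mul_le_mul h4 ((h s).trans (Real.exp_le_exp.2 h3)) (norm_nonneg _) (Real.exp_pos _).le

/-- a continuation in the normalised form -/
lemma raw (hr : r ≤ V.n) (hA : 1 ≤ A) (h : Data V a' α) (hΛ : V.Continued r A Λ) :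
    RawT (1 / 2) V.n r A a' (bR (cE α)) (cE α) (fun z => 2 ^ V.c * Λ z) := by
  obtain ⟨hstr, him⟩ := cond h
  refine raw_of V.n_pos hr hA hstr him (bR_one _) (cE_le h.bd) (bR_conv _) (cE_real h)
    (hΛ.entire.const_mul _) (order_two _ hΛ.order) ?_ ?_
  · rcases hΛ.fe with h1 | h1
    · exact Or.inl fun s => by
        show 2 ^ V.c * Λ (1 - s) = 2 ^ V.c * Λ s
        rw [h1]
    · exact Or.inr fun s => by
        show 2 ^ V.c * Λ (1 - s) = -(2 ^ V.c * Λ s)
        rw [h1, mul_neg]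
  · obtain ⟨σ, hσ⟩ := hΛ.eq
    refine ⟨max σ (7 / 4), fun s hs => ?_⟩
    show 2 ^ V.c * Λ s = _
    rw [PP_eq h ((le_max_right _ _).trans hs), hσ s ((le_max_left _ _).trans hs)]

/-- from a continuation to the normalised form -/
lemma good_of (hr : r ≤ V.n) (hA : 1 ≤ A) (h : Data V a' α) {S : Set ℝ} (hΛ : V.Simple r A Λ)
    (hw : ∀ t : ℝ, t ∈ S → Λ (1 / 2 + I * t) ≠ 0) :
    Good S V.n r A a' (bR (cE α)) (cE α) (fun z => 2 ^ V.c * Λ z) := by
  have h2c : (2 : ℂ) ^ V.c ≠ 0 := pow_ne_zero _ two_ne_zero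
  refine ⟨raw hr hA h hΛ.toContinued, ?_, fun s hs => ?_, fun s hs => ?_, fun t ht => ?_⟩
  · rcases hΛ.fe with h1 | h1
    · exact Or.inl fun s => by
        show 2 ^ V.c * Λ (1 - s) = 2 ^ V.c * Λ s
        rw [h1]
    · exact Or.inr fun s => by
        show 2 ^ V.c * Λ (1 - s) = -(2 ^ V.c * Λ s)
        rw [h1, mul_neg]
  · exact hΛ.line _ ((mul_eq_zero.1 hs).resolve_left h2c)
  · have h1 := hΛ.simple _ ((mul_eq_zero.1 hs).resolve_left h2c)
    have h2 : HasDerivAt (fun z => 2 ^ V.c * Λ z) (2 ^ V.c * deriv Λ s) s :=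
      (hΛ.entire s).hasDerivAt.const_mul _
    rw [h2.deriv]
    exact mul_ne_zero h2c h1
  · exact mul_ne_zero h2c (hw t ht)

/-- from the normalised form to a continuation -/
lemma of_good (hA : 1 ≤ A) (h : Data V a' α) {S : Set ℝ} {X : ℂ → ℂ}
    (hX : Good S V.n r A a' (bR (cE α)) (cE α) X) : ∃ Λ : ℂ → ℂ, V.Simple r A Λ ∧
      ∀ t : ℝ, t ∈ S → Λ (1 / 2 + I * t) ≠ 0 := by
  have h2c : ((2 : ℂ) ^ V.c)⁻¹ ≠ 0 := inv_ne_zero (pow_ne_zero _ two_ne_zero)
  refine ⟨fun s => ((2 : ℂ) ^ V.c)⁻¹ * X s, ⟨⟨hX.raw.entire.const_mul _, order_two _ hX.raw.order, ?_, ?_⟩,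
    fun s hs => ?_, fun s hs => ?_⟩, fun t ht => ?_⟩
  · rcases hX.fe with h1 | h1
    · exact Or.inl fun s => by
        show ((2 : ℂ) ^ V.c)⁻¹ * X (1 - s) = ((2 : ℂ) ^ V.c)⁻¹ * X s
        rw [h1]
    · exact Or.inr fun s => by
        show ((2 : ℂ) ^ V.c)⁻¹ * X (1 - s) = -(((2 : ℂ) ^ V.c)⁻¹ * X s)
        rw [h1, mul_neg]
  · obtain ⟨σ, hσ⟩ := hX.raw.eq
    refine ⟨max σ (7 / 4), fun s hs => ?_⟩
    have h1 : X s = 2 ^ V.c * V.completed r A s := by
      rw [hσ s ((le_max_left _ _).trans hs), ← PP_eq h ((le_max_right _ _).trans hs)]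
      rfl
    show ((2 : ℂ) ^ V.c)⁻¹ * X s = _
    rw [h1, ← mul_assoc, inv_mul_cancel₀ (pow_ne_zero _ two_ne_zero), one_mul]
  · exact hX.line _ ((mul_eq_zero.1 hs).resolve_left h2c)
  · have h1 := hX.simple _ ((mul_eq_zero.1 hs).resolve_left h2c)
    have h2 : HasDerivAt (fun z => ((2 : ℂ) ^ V.c)⁻¹ * X z) (((2 : ℂ) ^ V.c)⁻¹ * deriv X s) s :=
      (hX.raw.entire s).hasDerivAt.const_mul _
    rw [h2.deriv]
    exact mul_ne_zero h2c h1
  · exact mul_ne_zero h2c (hX.window t ht)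

/-- a continuation does not vanish identically -/
lemma cont_ne (hr : r ≤ V.n) (hA : 1 ≤ A) (h : Data V a' α) (hΛ : V.Continued r A Λ) :
    Λ (1 / 2 + I * -(2 * I)) ≠ 0 := by
  let L : LFun := ⟨V.n, r, A, a', bR (cE α), cE α, _, raw hr hA h hΛ, (cond h).1⟩
  intro h0
  have h1 : L.X (1 / 2 + I * -(2 * I)) ≠ 0 := by
    refine X_ne (L := L) ?_
    have : (1 / 2 + I * -(2 * I) : ℂ) = ((5 / 2 : ℝ) : ℂ) := by
      have := Complex.I_mul_I
      push_cast
      linear_combination (-2) * this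
    rw [this, Complex.ofReal_re]
    norm_num
  apply h1
  show 2 ^ V.c * Λ (1 / 2 + I * -(2 * I)) = 0
  rw [h0, mul_zero]

/-- **Main theorem.** `V`: the data of the real-valued character; nothing is assumed on the continuation. -/
theorem result (V : ArtinData) {r : ℕ} (hr : r ≤ V.n) {A : ℝ} (hA : 1 ≤ A) :
    ((∃ Λ : ℂ → ℂ, V.Simple r A Λ) ↔ ∃ S : Set ℝ, Window S ∧ ∃ (E : ℝ → ℂ → ℂ) (d : ℝ → ℕ),
      Describes (V.W r A) S E d ∧ V.HalfLine r A S E) ∧
    ∀ S : Set ℝ, Window S →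
      (∃ (E : ℝ → ℂ → ℂ) (d : ℝ → ℕ), Describes (V.W r A) S E d) ∧
      (∀ (E E' : ℝ → ℂ → ℂ) (d d' : ℝ → ℕ), Describes (V.W r A) S E d → Describes (V.W r A) S E' d' →
        ∀ a : ℝ, 0 < a → ∃ c : ℂ, c ≠ 0 ∧ ∀ z, E' a z = c * E a z) ∧
      (∀ (E : ℝ → ℂ → ℂ) (d : ℝ → ℕ), Describes (V.W r A) S E d →
        ((∃ Λ : ℂ → ℂ, V.Simple r A Λ ∧ ∀ t : ℝ, t ∈ S → Λ (1 / 2 + I * t) ≠ 0) ↔ V.HalfLine r A S E)) := by
  obtain ⟨a', α, h⟩ := data V
  obtain ⟨hstr, him⟩ := cond h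
  have hcr := cE_real h
  have hW : ∀ t : ℝ, 0 < t → ∀ f, Run7.h336.CB.S.InDom t f → V.W r A t f = WF V.n r A a' (cE α) t f :=
    fun t _ f _ => W_eq hA h t f
  have hex : ∀ S : Set ℝ, Window S → ∃ (E : ℝ → ℂ → ℂ) (d : ℝ → ℕ), Describes (V.W r A) S E d :=
    fun S hS => describes_WF V.n_pos hA hstr him hcr hW hS
  have hiff : ∀ S : Set ℝ, Window S → ∀ (E : ℝ → ℂ → ℂ) (d : ℝ → ℕ), Describes (V.W r A) S E d →
        ((∃ Λ : ℂ → ℂ, V.Simple r A Λ ∧ ∀ t : ℝ, t ∈ S → Λ (1 / 2 + I * t) ≠ 0) ↔ V.HalfLine r A S E) := by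
    intro S hS E d hE
    rw [halfLine_iff h]
    constructor
    · rintro ⟨Λ, hΛ, hw⟩
      have hg := good_of hr hA h hΛ hw
      refine conv_of_good hS hE hstr hg hW fun y hy => ?_
      have hl : 7 / 4 < (1 / 2 + (y : ℂ)).re := by
        rw [Complex.add_re, Complex.ofReal_re]
        norm_num
        linarith
      -- the identity theorem in the half-plane `Re s > 2`
      obtain ⟨σ, hσ⟩ := hg.raw.eq
      have hop : IsOpen {s : ℂ | 2 < s.re} := isOpen_lt continuous_const Complex.continuous_re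
      have hP := (PP_diff (r := r) (m := V.n) hA hstr (bR_one _) (bR_conv _) (cE_le h.bd)).analyticOnNhd hop
      have hXa : AnalyticOnNhd ℂ (fun z => 2 ^ V.c * Λ z) {s : ℂ | 2 < s.re} := fun z _ => hg.raw.entire.analyticAt z
      have hpre : IsPreconnected {s : ℂ | 2 < s.re} := (convex_halfSpace_re_gt 2).isPreconnected
      set z0 : ℂ := ((max σ 2 + 1 : ℝ) : ℂ) with hz0
      have hz0' : 2 < z0.re := by
        rw [hz0, Complex.ofReal_re]
        linarith [le_max_right σ 2]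
      have hev : PP V.n r A a' (bR (cE α)) =ᶠ[𝓝 z0] fun z => 2 ^ V.c * Λ z := by
        have h1 : {s : ℂ | σ < s.re} ∈ 𝓝 z0 := (isOpen_lt continuous_const Complex.continuous_re).mem_nhds (by
          show σ < z0.re
          rw [hz0, Complex.ofReal_re]
          linarith [le_max_left σ 2])
        filter_upwards [h1] with s hs
        exact (hσ s (le_of_lt hs)).symm
      refine hP.eqOn_of_preconnected_of_eventuallyEq hXa hpre hz0' hev ?_
      show 2 < (1 / 2 + (y : ℂ)).re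
      rw [Complex.add_re, Complex.ofReal_re]
      norm_num
      linarith
    · intro hc
      obtain ⟨X, hX, -⟩ := good_of_conv V.n_pos hr hA hstr (bR_one _) (cE_le h.bd) (bR_conv _) hS hE hW
        (PP_diff hA hstr (bR_one _) (bR_conv _) (cE_le h.bd)) (fun s _ => rfl)
        (PP_growth hA hstr him (bR_one _) (bR_conv _) (cE_le h.bd)) hc
      exact of_good hA h hX
  refine ⟨⟨?_, ?_⟩, fun S hS => ⟨hex S hS, fun E E' d d' h1 h2 a ha => gen_unique h1 h2 ha, hiff S hS⟩⟩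
  · rintro ⟨Λ, hΛ⟩
    have hd : Differentiable ℂ fun z => Λ (1 / 2 + I * z) := hΛ.entire.comp (by fun_prop)
    obtain ⟨S, hS, hno⟩ := exists_window hd ⟨-(2 * I), cont_ne hr hA h hΛ.toContinued⟩
    obtain ⟨E, d, hE⟩ := hex S hS
    exact ⟨S, hS, E, d, hE, (hiff S hS E d hE).1 ⟨Λ, hΛ, hno⟩⟩
  · rintro ⟨S, hS, E, d, hE, hc⟩
    obtain ⟨Λ, hΛ, -⟩ := (hiff S hS E d hE).2 hc
    exact ⟨Λ, hΛ⟩

end Pool.Agent.Results.MP_d2121a_nt.ContinuationCriterion
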