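import Mathlib
import Pool.Agent.Run7.h375.GLP.Rgn

/-!
# Artin L-functions of characters of cuspidal type

`Pool.Agent.H541R3.ART.Irr G` is the set of irreducible complex characters of the finite group `G`.

`Pool.Agent.H541R3.ART.ArtinData G s₀` is a family of functions with the formal properties of the
Artin L-functions of a Galois extension `L/F` with group `G` near a point `s₀ ≠ 1`: functions
`L χ` for the irreducible characters `χ` of `G` and `Lin H ψ` for the linear characters `ψ` of the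
subgroups `H`, such that `L χ` is meromorphic and not identically zero near `s₀` (Brauer), `Lin H ψ`
has no pole at `s₀` (Artin reciprocity and Hecke), and `Lin H ψ` is the product of the
`L χ ^ ⟨χ|_H, ψ⟩` (induction). So `Lin H ψ` stands for the L-function of `ψ` as a Hecke character of
the field fixed by `H`, and `Lin H 1` for the Dedekind zeta function of this field.

Let `V` be a vector space of finite dimension over a finite field `k`. `GLv k V` is the group `GL(V)`
of the `k`-linear automorphisms of `V`, and `act g v` is `g v`. `IsCuspidal χ`: the character `χ` of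
`GL(V)` is irreducible, and for all subspaces `W ≠ 0, V` the sum of the values of `χ` over the group
of all `u ∈ GL(V)` which are trivial on `W` and on `V / W` is zero. This group is the unipotent
radical of the stabilizer of `W`, so `χ` is a cuspidal character of `GL(V)`. For a field `E ⊇ k`, a
`k`-linear isomorphism `e : V → E` and `t ∈ Eˣ`, `IsMul e g t` says that `g` is `v ↦ e⁻¹ (t * e v)`;
the group of these `g` is a Coxeter torus of `GL(V)`.

`Pool.Agent.Run7.h375.GLP.IsInd G₀ f χ`: the function `χ` on `G` is induced from the function `f` on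
the subgroup `G₀`.

A character `χ` is of cuspidal type (`Datum`, `Datum.Gives`) if it is irreducible and induced from a
character `μ ⊗ (X₁ ⊗ ⋯ ⊗ X_m) ∘ π` of a subgroup `G₀`, where `μ` is a linear character of `G₀`, `π`
is a homomorphism of `G₀` onto a product `∏ GL(V i)`, and the `X i` are cuspidal characters of the
groups `GL(V i)`, where `V i` is a vector space over the finite field `k i` whose dimension is a
prime `n i`. If the product is empty, then this says that `χ` is monomial. Examples: the cuspidal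
characters of `GL_n(F_q)`, `n` prime; the products of cuspidal characters of the groups
`GL_2(Z/ℓ)` for several primes `ℓ`, as characters of `GL_2(Z/N)`; for general `n`, the irreducible
characters of `GL_n(F_q)` which are induced from a parabolic subgroup and a cuspidal character of
its Levi quotient, if the sizes of its blocks are `1` or primes.

The theorem gives the order of `L(s, χ)` at every point at which the order `r` of the Hecke
L-function `L(s, μ|ker π)` (of the field fixed by the kernel of `π`; this is the zeta function of this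
field if `μ` is trivial on the kernel) satisfies `r (q - 1) < (q ^ a - 1) (q ^ b - 1)` for every
`i` and some `a + b = n i`, `q = |k i|`. For `n i = 2` this says `r < q - 1`, for `n i = 3` it says
`r < q ^ 2 - 1`. The order of `L(s, χ)` is `(-1) ^ ∑ (n i - 1)` times the order of a Hecke L-function
`L(s, ψ)` of the field fixed by the preimage `H` of the product of the Coxeter tori. So Artin's
conjecture holds for `χ` at these points if `∑ (n i - 1)` is even, for instance if all `n i` are odd;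
and `L(s, χ)` has no zero at these points if `∑ (n i - 1)` is odd. The region of `m` and `x`
(`InRegion`, from the starting file `SubfieldRegion`) is `s ≠ 1`, `0 < Re s ≤ 1`,
`(1 - Re s) log |d_L| ≤ 2 m x` if `s` is real, and
`(1 - Re s) ((log |d_L| + [L : ℚ] log (1 + |Im s|) / 2) / m + 1 / (2 |Im s|)) ≤ x` otherwise. In this
region nothing is assumed about zeros.

Proof. The orders at `s₀` are the multiplicities of a class function of `G` which has nonnegative
integral multiplicities at the linear characters of all subgroups (Heilbronn, Foote, Murty). By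
twisting with `μ`, restriction to `G₀` and averaging over the kernel of `π` we get such a function
`θ` on `∏ GL(V i)`, with `θ(1) = r`. If `r` is small then `θ(u) = r` for transvections `u` and
therefore for unipotent `u`, and hence `θ(g)` depends only on the semisimple part of `g`. For such
a function the multiplicity of the cuspidal character `X i` is determined by the values of `X i` on
the Coxeter torus. These values are found by a count of unipotent elements: up to the sign
`(-1) ^ (n i - 1)` and a factor on the scalars they are the sum of the conjugates of one linear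
character `φ i` of the torus.
-/

set_option autoImplicit false

namespace Pool.Agent.Results.MP_d2121a_nt.CuspidalType

open Module Pool.Agent.H541R3.ART Pool.Agent.Run7.h375.GLP
open Pool.Agent.Results.MP_d2121a_nt.SubfieldRegion (InRegion HasZetas)

/-- the group `GL(V)` -/
def GLv (k V : Type) [Field k] [AddCommGroup V] [Module k V] : Type := V ≃ₗ[k] V

instance (k V : Type) [Field k] [AddCommGroup V] [Module k V] : Group (GLv k V) :=
  LinearEquiv.automorphismGroup (R := k) (M := V)

instance (k V : Type) [Field k] [AddCommGroup V] [Module k V] [Finite V] : Finite (GLv k V) :=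
  inferInstanceAs (Finite (V ≃ₗ[k] V))

/-- `g v` -/
def act {k V : Type} [Field k] [AddCommGroup V] [Module k V] (g : GLv k V) (v : V) : V :=
  (show V ≃ₗ[k] V from g) v

/-- `χ` is a cuspidal character of `GL(V)`. -/
def IsCuspidal {k V : Type} [Field k] [AddCommGroup V] [Module k V] (χ : GLv k V → ℂ) : Prop :=
  χ ∈ Irr (GLv k V) ∧ ∀ W : Submodule k V, W ≠ ⊥ → W ≠ ⊤ →
    ∑ᶠ u : {u : GLv k V // (∀ v, act u v - v ∈ W) ∧ ∀ w ∈ W, act u w = w}, χ u = 0

lemma IsCuspidal.to {k V : Type} [Field k] [AddCommGroup V] [Module k V] [Finite k] [Finite V]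
    {χ : GLv k V → ℂ} (h : IsCuspidal χ) : Pool.Agent.Run7.h375.GLP.IsCuspidal (k := k) (V := V) χ :=
  ⟨h.1, fun W h0 h1 => h.2 W h0 h1⟩

/-- `g` is the multiplication with `t`, if `V` is identified with `E`. -/
def IsMul {k V E : Type} [Field k] [AddCommGroup V] [Module k V] [Field E] [Algebra k E]
    (e : V ≃ₗ[k] E) (g : GLv k V) (t : Eˣ) : Prop := ∀ v, e (act g v) = t * e v

/-- A subgroup `G₀` of `G`, a homomorphism `π` of `G₀` onto a product of groups `GL(V i)`, where `V i`
is a vector space of prime dimension over the finite field `k i`, a linear character `μ` of `G₀` and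
cuspidal characters `X i` of the groups `GL(V i)`. -/
structure Datum (G : Type) [Group G] where
  G₀ : Subgroup G
  ι : Type
  k : ι → Type
  V : ι → Type
  [fintype : Fintype ι]
  [field : ∀ i, Field (k i)]
  [finiteField : ∀ i, Finite (k i)]
  [addCommGroup : ∀ i, AddCommGroup (V i)]
  [module : ∀ i, Module (k i) (V i)]
  [finite : ∀ i, Finite (V i)]
  prime : ∀ i, (finrank (k i) (V i)).Prime
  π : G₀ →* ∀ i, GLv (k i) (V i)
  surjective : Function.Surjective π
  μ : G₀ →* ℂˣ
  X : ∀ i, GLv (k i) (V i) → ℂ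
  cuspidal : ∀ i, IsCuspidal (X i)

attribute [instance] Datum.fintype Datum.field Datum.finiteField Datum.addCommGroup Datum.module
  Datum.finite

namespace Datum

variable {G : Type} [Group G] (D : Datum G)

/-- the component of `π x` in `GL(V i)` -/
def part (x : D.G₀) (i : D.ι) : GLv (D.k i) (D.V i) := D.π x i

/-- `χ` is irreducible and induced from the character `μ ⊗ (⊗ X i) ∘ π` of `G₀`. -/
def Gives (χ : G → ℂ) : Prop :=
  χ ∈ Irr G ∧ IsInd D.G₀ (fun x => ((D.μ x : ℂˣ) : ℂ) * ∏ i, D.X i (D.part x i)) χ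

/-- `∑ (n i - 1)` -/
noncomputable def rank : ℕ := ∑ i, (finrank (D.k i) (D.V i) - 1)

/-- For every `i` there are `a, b > 0` with `a + b = n i` and `R (q - 1) < (q ^ a - 1) (q ^ b - 1)`,
`q = |k i|`. -/
def Bounds (R : ℝ) : Prop :=
  ∀ i, ∃ a b : ℕ, 0 < a ∧ 0 < b ∧ a + b = finrank (D.k i) (D.V i) ∧
    R * ((Nat.card (D.k i) : ℝ) - 1)
      < ((Nat.card (D.k i) : ℝ) ^ a - 1) * ((Nat.card (D.k i) : ℝ) ^ b - 1)

/-- `K` is the kernel of `π`, and `ν` is the restriction of `μ` to `K`. -/
def IsKer (K : Subgroup G) (ν : K →* ℂˣ) : Prop :=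
  (∀ x : G, x ∈ K ↔ ∃ h : x ∈ D.G₀, ∀ i, D.part ⟨x, h⟩ i = 1) ∧
    ∀ (x : D.G₀) (hx : (x : G) ∈ K), ν ⟨x, hx⟩ = D.μ x

/-- The order `r` of the L-function of `μ|ker π` at `s₀` is small. -/
def Small {s₀ : ℂ} (A : ArtinData G s₀) : Prop :=
  ∃ (K : Subgroup G) (ν : K →* ℂˣ) (r : ℕ), D.IsKer K ν ∧
    meromorphicOrderAt (A.Lin K ν) s₀ = (r : WithTop ℤ) ∧ D.Bounds r

/-- `H` is the preimage in `G₀` of the product of the Coxeter tori, and `ψ` is `μ ⊗ (⊗ φ i)` on
`H`. -/
def IsProd {E : D.ι → Type} [∀ i, Field (E i)] [∀ i, Algebra (D.k i) (E i)]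
    (e : ∀ i, D.V i ≃ₗ[D.k i] E i) (φ : ∀ i, (E i)ˣ →* ℂˣ) (H : Subgroup G) (ψ : H →* ℂˣ) : Prop :=
  (∀ x : G, x ∈ H ↔ ∃ h : x ∈ D.G₀, ∀ i, ∃ t, IsMul (e i) (D.part ⟨x, h⟩ i) t) ∧
    ∀ (x : D.G₀) (hx : (x : G) ∈ H) (t : ∀ i, (E i)ˣ), (∀ i, IsMul (e i) (D.part x i) (t i)) →
      ψ ⟨x, hx⟩ = D.μ x * ∏ i, φ i (t i)

/-- There are linear characters `φ i` of the groups `(E i)ˣ` such that for `ψ = μ ⊗ (⊗ φ i)`, for all
`s₀` and all Artin L-functions with group `G`: if the order of `L(s, μ|ker π)` at `s₀` is small then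
the order of `L(s, χ)` is `(-1) ^ ∑ (n i - 1)` times the order of `L(s, ψ)`. -/
def Formula : Prop :=
  ∀ (E : D.ι → Type) [∀ i, Field (E i)] [∀ i, Algebra (D.k i) (E i)]
    (e : ∀ i, D.V i ≃ₗ[D.k i] E i), ∃ (φ : ∀ i, (E i)ˣ →* ℂˣ) (H : Subgroup G) (ψ : H →* ℂˣ),
    D.IsProd e φ H ψ ∧ ∀ χ : G → ℂ, D.Gives χ → ∀ (s₀ : ℂ) (A : ArtinData G s₀), D.Small A →
      ∃ m : ℕ, meromorphicOrderAt (A.Lin H ψ) s₀ = (m : WithTop ℤ) ∧
        meromorphicOrderAt (A.L χ) s₀ = (((-1) ^ D.rank * m : ℤ) : WithTop ℤ)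

/-- the conclusion on the sign of the order -/
def Sign (n : WithTop ℤ) : Prop := (Even D.rank → 0 ≤ n) ∧ (Odd D.rank → n ≤ 0)

/-- the projection with values in the product of the groups `V i ≃ V i` -/
def pr : D.G₀ →* ∀ i, (D.V i ≃ₗ[D.k i] D.V i) := D.π

lemma pr_surj : Function.Surjective D.pr := D.surjective

lemma bounds_nat {r : ℕ} (h : D.Bounds r) (i : D.ι) : ∃ a b : ℕ, 0 < a ∧ 0 < b ∧
    a + b = finrank (D.k i) (D.V i) ∧
    r * (Nat.card (D.k i) - 1) < (Nat.card (D.k i) ^ a - 1) * (Nat.card (D.k i) ^ b - 1) := by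
  obtain ⟨a, b, ha, hb, hab, hlt⟩ := h i
  refine ⟨a, b, ha, hb, hab, ?_⟩
  have h1 : 1 ≤ Nat.card (D.k i) := Nat.card_pos
  have h2 : ∀ c : ℕ, 1 ≤ Nat.card (D.k i) ^ c := fun c => Nat.one_le_pow _ _ h1
  have h3 : ((r * (Nat.card (D.k i) - 1) : ℕ) : ℝ)
      < (((Nat.card (D.k i) ^ a - 1) * (Nat.card (D.k i) ^ b - 1) : ℕ) : ℝ) := by
    rw [Nat.cast_mul, Nat.cast_mul, Nat.cast_sub h1, Nat.cast_sub (h2 a), Nat.cast_sub (h2 b)]
    push_cast
    exact hlt
  exact_mod_cast h3

lemma isKer_eq [Finite G] {K : Subgroup G} {ν : K →* ℂˣ} (h : D.IsKer K ν) (s₀ : ℂ)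
    (A : ArtinData G s₀) : meromorphicOrderAt (A.Lin K ν) s₀
      = meromorphicOrderAt (A.Lin (D.pr.ker.map D.G₀.subtype)
        (liftC D.G₀ D.pr.ker (D.μ.comp D.pr.ker.subtype))) s₀ := by
  obtain ⟨h1, h2⟩ := h
  have hK : K = D.pr.ker.map D.G₀.subtype := by
    ext x
    rw [h1]
    constructor
    · rintro ⟨h, hx⟩
      exact ⟨⟨x, h⟩, funext hx, rfl⟩
    · rintro ⟨u, hu, rfl⟩
      exact ⟨u.2, congrFun hu⟩
  subst hK
  have hν : ν = liftC D.G₀ D.pr.ker (D.μ.comp D.pr.ker.subtype) := by
    apply MonoidHom.ext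
    rintro ⟨x, u, hu, rfl⟩
    exact (h2 u _).trans (liftC_apply D.G₀ D.pr.ker (D.μ.comp D.pr.ker.subtype) ⟨u, hu⟩ _).symm
  rw [hν]

lemma isKer_ex [Finite G] : D.IsKer (D.pr.ker.map D.G₀.subtype)
    (liftC D.G₀ D.pr.ker (D.μ.comp D.pr.ker.subtype)) := by
  constructor
  · intro x
    constructor
    · rintro ⟨u, hu, rfl⟩
      exact ⟨u.2, congrFun hu⟩
    · rintro ⟨h, hx⟩
      exact ⟨⟨x, h⟩, funext hx, rfl⟩
  · rintro x ⟨u, hu, hxu⟩
    have h1 : u = x := Subtype.ext hxu
    subst h1
    exact liftC_apply D.G₀ D.pr.ker (D.μ.comp D.pr.ker.subtype) ⟨u, hu⟩ _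

/-- the formula -/
theorem formula [Finite G] : D.Formula := by
  intro E _ _ e
  have : ∀ i, Finite (E i) := fun i => Finite.of_equiv _ (e i).toEquiv
  have hmul : ∀ (i : D.ι) (g : D.V i ≃ₗ[D.k i] D.V i) (t : (E i)ˣ),
      IsMul (e i) g t ↔ mtH (e i) t = g := by
    intro i g t
    constructor
    · intro h
      apply LinearEquiv.ext
      intro v
      apply (e i).injective
      exact (mt_apply (e i) t v).trans (h v).symm
    · rintro rfl v
      exact mt_apply (e i) t v
  obtain ⟨φ, hφ⟩ := core D.G₀ e D.prime D.pr D.pr_surj D.μ D.X (fun i => (D.cuspidal i).to)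
  refine ⟨φ, ((torus e).comap D.pr).map D.G₀.subtype,
    liftC D.G₀ ((torus e).comap D.pr) (torC e D.pr D.μ φ), ⟨?_, ?_⟩, ?_⟩
  · intro x
    constructor
    · rintro ⟨u, hu, rfl⟩
      refine ⟨u.2, fun i => ?_⟩
      obtain ⟨t, ht⟩ := (mem_torus e _).mp hu i
      exact ⟨t, (hmul i _ t).mpr ht⟩
    · rintro ⟨h, hx⟩
      refine ⟨⟨x, h⟩, (mem_torus e _).mpr fun i => ?_, rfl⟩
      obtain ⟨t, ht⟩ := hx i
      exact ⟨t, (hmul i _ t).mp ht⟩
  · rintro x ⟨u, hu, hxu⟩ t ht
    have h1 : u = x := Subtype.ext hxu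
    subst h1
    refine (liftC_apply D.G₀ _ (torC e D.pr D.μ φ) ⟨u, hu⟩ _).trans ?_
    have h2 : preTor e D.pr ⟨u, hu⟩ = torusEquiv e t := by
      apply Subtype.ext
      funext i
      exact ((hmul i _ (t i)).mp (ht i)).symm
    change D.μ u * prodC φ ((torusEquiv e).symm (preTor e D.pr ⟨u, hu⟩)) = _
    rw [h2, MulEquiv.symm_apply_apply]
    rfl
  · rintro χ hχ s₀ A ⟨K, ν, r, hν, hr, hB⟩
    refine hφ χ hχ.1 hχ.2 s₀ A r ?_ (D.bounds_nat hB)
    rw [← D.isKer_eq hν s₀ A]
    exact hr

theorem exists_fields : ∃ (E : D.ι → Type) (_ : ∀ i, Field (E i)) (_ : ∀ i, Algebra (D.k i) (E i))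
    (_ : ∀ i, Finite (E i)), Nonempty (∀ i, D.V i ≃ₗ[D.k i] E i) := by
  have h1 : ∀ i, ∃ (F : Type) (_ : Field F) (_ : Algebra (D.k i) F) (_ : Finite F),
      Nonempty (D.V i ≃ₗ[D.k i] F) := by
    intro i
    obtain ⟨p, hp⟩ := CharP.exists (D.k i)
    have hp' : Fact p.Prime := ⟨(CharP.char_is_prime_or_zero (D.k i) p).resolve_right
      (CharP.char_ne_zero_of_finite (D.k i) p)⟩
    have : NeZero (finrank (D.k i) (D.V i)) := ⟨(D.prime i).ne_zero⟩
    have : Module.Finite (D.k i) (D.V i) := Module.Finite.of_finite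
    refine ⟨FiniteField.Extension (D.k i) p (finrank (D.k i) (D.V i)), inferInstance,
      inferInstance, inferInstance, ⟨LinearEquiv.ofFinrankEq _ _ ?_⟩⟩
    rw [FiniteField.finrank_extension]
  choose E i1 i2 i3 he using h1
  exact ⟨E, i1, i2, i3, ⟨fun i => (he i).some⟩⟩

theorem sign [Finite G] {χ : G → ℂ} (hχ : D.Gives χ) {s₀ : ℂ} (A : ArtinData G s₀)
    (hA : D.Small A) : D.Sign (meromorphicOrderAt (A.L χ) s₀) := by
  obtain ⟨E, _, _, _, ⟨e⟩⟩ := D.exists_fields
  obtain ⟨φ, H, ψ, -, h⟩ := D.formula E e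
  obtain ⟨m, -, hm⟩ := h χ hχ s₀ A hA
  rw [hm]
  constructor
  · intro he
    rw [he.neg_one_pow, one_mul]
    exact_mod_cast Int.natCast_nonneg m
  · intro ho
    rw [ho.neg_one_pow]
    have h1 : (-1 * (m : ℤ)) ≤ 0 := by
      have := Int.natCast_nonneg m
      linarith
    exact_mod_cast h1

theorem region {F L : Type} [Field F] [NumberField F] [Field L] [NumberField L] [Algebra F L]
    [IsGalois F L] (D : Datum (L ≃ₐ[F] L)) {χ : (L ≃ₐ[F] L) → ℂ} (hχ : D.Gives χ) {s₀ : ℂ}
    (A : ArtinData (L ≃ₐ[F] L) s₀) (hA : HasZetas A) {x : ℝ} (hB : D.Bounds ((1 + √x) ^ 2))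
    (hs : InRegion L (Nat.card {y : D.G₀ // (∀ i, D.part y i = 1) ∧ D.μ y = 1}) x s₀) :
    D.Sign (meromorphicOrderAt (A.L χ) s₀) := by
  obtain ⟨r, hr, -⟩ := lin_order A (D.pr.ker.map D.G₀.subtype)
    (liftC D.G₀ D.pr.ker (D.μ.comp D.pr.ker.subtype))
  refine D.sign hχ A ⟨_, _, r, D.isKer_ex, hr, ?_⟩
  · intro i
    have hcard : Nat.card {y : D.G₀ // (∀ i, D.part y i = 1) ∧ D.μ y = 1}
        = Nat.card (D.pr.ker ⊓ D.μ.ker : Subgroup D.G₀) :=
      Nat.card_congr (Equiv.subtypeEquivRight fun y => and_congr_left fun _ =>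
        ⟨fun h => funext h, fun h => congrFun h⟩)
    rw [hcard] at hs
    have htop : (D.pr.ker ⊓ D.μ.ker).map D.G₀.subtype ≠ ⊤ := by
      intro htop
      have hV : Nontrivial (D.V i) :=
        Module.nontrivial_of_finrank_pos (R := D.k i) (D.prime i).pos
      have h1 : ∀ g : D.V i ≃ₗ[D.k i] D.V i, g = 1 := by
        intro g
        classical
        obtain ⟨y, hy⟩ := D.pr_surj (Pi.mulSingle i g)
        have h2 : (y : L ≃ₐ[F] L) ∈ (D.pr.ker ⊓ D.μ.ker).map D.G₀.subtype := by
          rw [htop]; trivial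
        obtain ⟨u, hu, huy⟩ := h2
        have h3 : u = y := Subtype.ext huy
        subst h3
        have h4 : D.pr u = 1 := hu.1
        rw [h4] at hy
        have h5 := congrFun hy i
        rw [Pi.mulSingle_eq_same] at h5
        exact h5.symm
      obtain ⟨E, _, _, _, ⟨e⟩⟩ := D.exists_fields
      have : Module.Finite (D.k i) (D.V i) := Module.Finite.of_finite
      have : Module.Finite (D.k i) (E i) := Module.Finite.of_finite
      have h6 : ∀ t : (E i)ˣ, t = 1 := fun t => mtH_inj (e i) (by rw [h1 (mtH (e i) t), map_one])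
      have h7 : Nat.card (E i)ˣ = 1 :=
        Nat.card_eq_one_iff_unique.mpr ⟨⟨fun a b => by rw [h6 a, h6 b]⟩, ⟨1⟩⟩
      rw [Nat.card_units, Module.natCard_eq_pow_finrank (K := D.k i) (V := E i),
        ← (e i).finrank_eq] at h7
      have h8 : 2 ^ 2 ≤ Nat.card (D.k i) ^ finrank (D.k i) (D.V i) :=
        (Nat.pow_le_pow_left Finite.one_lt_card 2).trans
          (Nat.pow_le_pow_right Nat.card_pos (D.prime i).two_le)
      omega
    obtain ⟨r₀, hr₀, hle⟩ := Pool.Agent.Results.MP_d2121a_nt.SubfieldRegion.order_le hA htop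
      (m := Nat.card (D.pr.ker ⊓ D.μ.ker : Subgroup D.G₀)) Nat.card_pos
      (by rw [card_map]) hs
    have h1 := lin_le A D.G₀ D.pr.ker D.μ hr hr₀
    obtain ⟨a, b, ha, hb, hab, hlt⟩ := hB i
    refine ⟨a, b, ha, hb, hab, lt_of_le_of_lt ?_ hlt⟩
    have h2 : (1 : ℝ) ≤ Nat.card (D.k i) := by exact_mod_cast Nat.card_pos
    have h3 : (r : ℝ) ≤ r₀ := by exact_mod_cast h1
    exact mul_le_mul_of_nonneg_right (h3.trans hle) (by linarith)

end Datum

/-- a class function is induced from the whole group -/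
lemma isInd_top {G : Type} [Group G] [Finite G] {χ : G → ℂ} (hχ : ∀ g h : G, χ (h * g * h⁻¹) = χ g)
    {f : (⊤ : Subgroup G) → ℂ} (hf : ∀ x, f x = χ x) : IsInd ⊤ f χ := by
  classical
  have : Fintype G := Fintype.ofFinite _
  intro g
  have h1 : ∀ x : G, extC ⊤ f (x⁻¹ * g * x) = χ g := by
    intro x
    rw [extC, dif_pos (Subgroup.mem_top _), hf]
    have := hχ g x⁻¹
    rwa [inv_inv] at this
  rw [finsum_congr h1, finsum_eq_sum_of_fintype, Finset.sum_const, Finset.card_univ, nsmul_eq_mul,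
    Nat.card_congr Subgroup.topEquiv.toEquiv, Nat.card_eq_fintype_card]

/-- the datum of a cuspidal character of `GL(V)` -/
noncomputable def single (k V : Type) [Field k] [Finite k] [AddCommGroup V] [Module k V] [Finite V]
    (hn : (finrank k V).Prime) (χ : GLv k V → ℂ) (hχ : IsCuspidal χ) :
    Datum (GLv k V) where
  G₀ := ⊤
  ι := Unit
  k := fun _ => k
  V := fun _ => V
  prime := fun _ => hn
  π := { toFun := fun x _ => x, map_one' := rfl, map_mul' := fun _ _ => rfl }
  surjective := fun y => ⟨⟨y (), trivial⟩, rfl⟩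
  μ := 1
  X := fun _ => χ
  cuspidal := fun _ => hχ

/-- No hypothesis on zeros: the conclusion on the sign of the order in the region of
`m = |ker π ∩ ker μ|` and `x`, if `(1 + √x) ^ 2` is small. -/
def RegionStatement : Prop :=
  ∀ (F L : Type) [Field F] [NumberField F] [Field L] [NumberField L] [Algebra F L]
    [IsGalois F L] (D : Datum (L ≃ₐ[F] L)) (χ : (L ≃ₐ[F] L) → ℂ), D.Gives χ →
    ∀ (s₀ : ℂ) (A : ArtinData (L ≃ₐ[F] L) s₀), HasZetas A → ∀ x : ℝ, D.Bounds ((1 + √x) ^ 2) →
      InRegion L (Nat.card {y : D.G₀ // (∀ i, D.part y i = 1) ∧ D.μ y = 1}) x s₀ →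
      D.Sign (meromorphicOrderAt (A.L χ) s₀)

/-- Let the group be `GL(V)`, where `V` has an odd prime dimension `a + b` over a field with `q`
elements, and let `r` be the order of the zeta function of the top field at `s₀`. If
`r (q - 1) < (q ^ a - 1) (q ^ b - 1)`, then no `L(s, χ)` with a cuspidal character `χ` has a pole at
`s₀`. -/
def GLStatement : Prop :=
  ∀ (k V : Type) [Field k] [Finite k] [AddCommGroup V] [Module k V] [Finite V] (a b : ℕ),
    0 < a → 0 < b → a + b = finrank k V → (finrank k V).Prime → Odd (finrank k V) →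
    ∀ (s₀ : ℂ) (A : ArtinData (GLv k V) s₀) (r : ℕ),
    meromorphicOrderAt (A.Lin ⊥ 1) s₀ = (r : WithTop ℤ) →
    (r : ℝ) * ((Nat.card k : ℝ) - 1) < ((Nat.card k : ℝ) ^ a - 1) * ((Nat.card k : ℝ) ^ b - 1) →
    ∀ χ : GLv k V → ℂ, IsCuspidal χ → 0 ≤ meromorphicOrderAt (A.L χ) s₀

/-- (1) Let `χ` be of cuspidal type. Then there are linear characters `φ i` of the groups `(E i)ˣ`
such that for the linear character `ψ = μ ⊗ (⊗ φ i)` of the preimage `H` of `∏ (E i)ˣ`, for all
`s₀` and all Artin L-functions with this group: if the order `r` of `L(s, μ|ker π)` at `s₀` is small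
then the order of `L(s, χ)` at `s₀` is `(-1) ^ ∑ (n i - 1)` times the order of `L(s, ψ)`.

(2) So at these points `L(s, χ)` has no pole if `∑ (n i - 1)` is even, and no zero if it is odd.

(3) The same in the region of `m = |ker π ∩ ker μ|` and `x`, if `(1 + √x) ^ 2` is small.

(4) For instance, let the group be `GL(V)`, where `V` has an odd prime dimension `a + b` over a field
with `q` elements, and let `r` be the order of the zeta function of the top field at `s₀`. If
`r (q - 1) < (q ^ a - 1) (q ^ b - 1)`, then no `L(s, χ)` with a cuspidal character `χ` has a pole at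
`s₀`. -/
theorem result :
    (∀ (G : Type) [Group G] [Finite G] (D : Datum G), D.Formula) ∧
    (∀ (G : Type) [Group G] [Finite G] (D : Datum G) (χ : G → ℂ), D.Gives χ →
      ∀ (s₀ : ℂ) (A : ArtinData G s₀), D.Small A → D.Sign (meromorphicOrderAt (A.L χ) s₀)) ∧
    RegionStatement ∧ GLStatement := by
  refine ⟨?_, ?_, ?_, ?_⟩
  · intro G _ _ D
    exact D.formula
  · intro G _ _ D χ hχ s₀ A hA
    exact D.sign hχ A hA
  · intro F L _ _ _ _ _ _ D χ hχ s₀ A hA x hB hs
    exact D.region hχ A hA hB hs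
  · intro k V _ _ _ _ _ a b ha hb hab hn hodd s₀ A r hr hlt χ hχ
    let D := single k V hn χ hχ
    have hG : D.Gives χ := by
      refine ⟨hχ.1, isInd_top (fun g h => Irr.conj hχ.1 g h) fun x => ?_⟩
      change ((1 : ℂˣ) : ℂ) * ∏ _i : Unit, χ x = χ x
      simp
    have hres : D.IsKer ⊥ 1 := by
      refine ⟨fun x => ⟨fun h => ⟨trivial, ?_⟩, ?_⟩, fun x hx => rfl⟩
      · subst h
        intro _
        rfl
      · rintro ⟨h, hx⟩
        exact Subgroup.mem_bot.mpr (hx ())
    have hB : D.Bounds r := fun _ => ⟨a, b, ha, hb, hab, hlt⟩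
    refine (D.sign hG A ⟨⊥, 1, r, hres, hr, hB⟩).1 ?_
    change Even (∑ _i : Unit, (finrank k V - 1))
    rw [Finset.sum_const, Finset.card_univ, Fintype.card_unit, one_smul]
    exact Nat.Odd.sub_odd hodd odd_one

end Pool.Agent.Results.MP_d2121a_nt.CuspidalType
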