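import Mathlib
import Pool.Agent.Run7.h344.SN.Main

/-!
# Artin L-functions of symmetric groups at zeros of polynomial order

`Pool.Agent.H541R3.ART.Irr G` is the set of irreducible complex characters of the finite group `G`.

`Pool.Agent.H541R3.ART.ArtinData G s₀` is a family of functions with the formal properties of the
Artin L-functions of a Galois extension `E/K` with group `G` near a point `s₀ ≠ 1`: functions
`L χ` for the irreducible characters `χ` of `G` and `Lin H ψ` for the linear characters `ψ` of the
subgroups `H`, such that `L χ` is meromorphic and not identically zero near `s₀` (Brauer), `Lin H ψ`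
has no pole at `s₀` (Artin reciprocity and Hecke), and `Lin H ψ` is the product of the
`L χ ^ ⟨χ|_H, ψ⟩` (induction). In particular `Lin ⊥ 1` stands for the Dedekind zeta function of `E`.

`Pool.Agent.N850.Art.Central j`: the group `Γ` is generated by the image of `j : S_n → Γ` and the
elements which commute with it, for example `Γ = S_n × K` for a finite group `K`.

`Pool.Agent.N850.Dur.Thick j ι t X`: `X` is a character of `Γ`, its restriction to `G` along `ι` is
irreducible, and its restriction to `S_n` along `j` contains none of the linear characters
`1 ⊗ ⋯ ⊗ 1 ⊗ sign ⊗ ⋯ ⊗ sign` (`t` factors of each kind) of the Young subgroups with `2 t` factors.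
For the character `χ_λ` of `S_n` of the partition `λ` this says that the side of the Durfee square
of `λ` is larger than `t`: the other partitions are those contained in a hook with `t` rows and `t`
columns (Berele and Regev).

Proof. The orders of the L-functions are the multiplicities in a class function `θ` on `Γ` whose
restrictions to all subgroups contain all linear characters with nonnegative integral
multiplicities, and `θ(1) < C(⌊n/2⌋, k)`. The characters of the group of products of `⌊n/2⌋`
disjoint transpositions with `k` signs do not occur in `θ`, by symmetry. An induction on `k`, in
which one passes to the `ψ`-component of `θ` for linear characters `ψ` of symmetric groups of blocks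
of letters, and the rigidity of class functions on a symmetric group in whose restrictions to
subgroups only the linear characters `1` and `sign` occur, show that all `k`-fold differences of
`θ(σ c)`, with `σ` running over products of permutations of the same sign in `k` disjoint blocks of
at least five letters, vanish. So `θ(σ c)` is a combination of the functions `σ ↦ (±1 or sign) ×`
(number of sets of fewer than `k` cycles of prescribed lengths) up to terms at which thick
characters vanish; and thick characters are orthogonal to these functions, by symmetrizer arguments
in the group algebra.
-/

set_option autoImplicit false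

open Equiv Pool.Agent.H541R3.ART Pool.Agent.N850.Art Pool.Agent.N850.Dur

/-- Let `E/K` be Galois with group `G ≤ Γ`, let `ζ_E` have order `r` at `s₀`, and let
`r |Γ| < C(⌊n/2⌋, k) |G|`. Then `L(s, X|_G)` is holomorphic and nonzero at `s₀` for all `X` as above
with `t = k + 1`. So for `Γ = G = S_n`: if `ζ_E` has a zero of order less than `C(⌊n/2⌋, k)` at
`s₀`, then `L(s, χ_λ)` is holomorphic and nonzero at `s₀` for all partitions `λ` of `n` with a
Durfee square of side at least `k + 2`. -/
theorem Pool.Agent.Results.MP_d2121a_nt.PolynomialOrder.result :
    ∀ (n k : ℕ) (Γ G : Type) [Group Γ] [Finite Γ] [Group G] [Finite G]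
      (j : Perm (Fin n) →* Γ) (ι : G →* Γ), Central j → Function.Injective ι →
    ∀ (s₀ : ℂ) (A : ArtinData G s₀) (r : ℕ),
      meromorphicOrderAt (A.Lin ⊥ 1) s₀ = (r : WithTop ℤ) →
      r * Nat.card Γ < (n / 2).choose k * Nat.card G →
    ∀ X : Γ → ℂ, Thick j ι (k + 1) X →
      meromorphicOrderAt (A.L fun g => X (ι g)) s₀ = 0 := by
  intro n k Γ G _ _ _ _ j ι hj hι s₀ A r hr hlt X hX
  exact Pool.Agent.Run7.h344.SN.thick_order_zero hj hι A hr hlt hX
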