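import Mathlib
import Pool.Agent.Run7.h588.EMB.Small

/-!
# Artin's conjecture for the small subgroups of the symmetric groups

`Pool.Agent.H541R3.ART.Irr G` is the set of irreducible complex characters of the finite group `G`.

`Pool.Agent.H541R3.ART.ArtinData G s₀` is a family of functions with the formal properties of the
Artin L-functions of a Galois extension `E/K` with group `G` near a point `s₀ ≠ 1`: functions
`L χ` for the irreducible characters `χ` of `G` and `Lin H ψ` for the linear characters `ψ` of the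
subgroups `H`, such that `L χ` is meromorphic and not identically zero near `s₀` (Brauer), `Lin H ψ`
has no pole at `s₀` (Artin reciprocity and Hecke), and `Lin H ψ` is the product of the
`L χ ^ ⟨χ|_H, ψ⟩` (induction). For a subgroup `U` of `G` and an irreducible character `ψ` of `U`, the
L-function of `ψ` as a character of the Galois group `U` of `E/E^U` is the product of the
`L χ ^ ⟨χ|_U, ψ⟩`.

The theorem says: let `E/K` be a Galois extension whose group `G` is `Sym(n)` or contains `Sym(n)`,
let `B` be any subgroup of `Sym(n)` which is small with respect to `n` (order, orders of the elements)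
and whose elements `≠ 1` have few fixed points, and let `F` be the fixed field of `B`. Then Artin's
holomorphy conjecture holds at every `s₀ ≠ 1` for all irreducible characters `ψ` of `Gal(E/F) = B`,
and of all subgroups `U` of `B`. Nothing is assumed about zeros. Moreover the orders at `s₀` of all
these L-functions `L(s, ψ)`, `ψ ≠ 1, sign`, are proportional to `ψ(1) / |U|` up to a factor between
`1 - ε` and `1 + ε`. If the order of `B` is bounded then the conditions are `n ≥ N`, and that each
element `≠ 1` of `B` has at most `n / C` fixed points. In particular every finite group `H` has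
embeddings in `Sym(n)` with this property for all large `n`; and for all large primes `p` the
splitting field `E` of `X ^ p - X - 1` over `ℚ` has a subfield `F` such that `E/F` is Galois with
group `H` and Artin's conjecture holds for all irreducible characters of `Gal(E/F)`. For solvable
groups `H` the existence of Galois extensions with group `H` and this property follows from Dade's
embedding theorem (`H` is a subgroup of a group all whose irreducible characters are monomial).

Proof. The orders at `s₀` are the multiplicities of a class function `θ` of `G` with nonnegative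
multiplicities at the linear characters of all subgroups. Let `c = θ(u)` for a product `u` of
`2 ⌊n/4⌋` disjoint transpositions, and let `g = θ(1) - c`. Then `|θ(b) - c| ≤ 5 g / 2 ^ m` for all even
permutations `b` with short cycles and few fixed points. The steps:
(1) Let `y` be a permutation all whose cycles have length `j`, and `u'` one all whose cycles have
length `2`. If `n` is divisible by `j 2 ^ (2jm+1)`, then `y` and `u'` can be realised on copies of
`𝔽₂ ^ (2jm+1)`, `u'` as a translation, `y` as a product of two involutions which permute the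
coordinates. The group of translations, with the abelian groups `(Q/[Q, x]) × ⟨x⟩` and a dihedral
group, gives `|θ(y) - θ(u')| ≤ 5 (θ(1) - θ(u')) / 2 ^ m`.
(2) The inequality remains true if `y` and `u'` are multiplied with a permutation `z` of other points
(decomposition of `θ` under `⟨z⟩`). So all but a bounded number of the cycles of length `j ≥ 3` of `b`
can be replaced by transpositions.
(3) The values of `θ` at the even involutions with few fixed points are almost equal: this is an
inequality on the group `(𝔽₂ × 𝔽₂) ^ s`.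
(4) The remaining long cycles, together with one transposition, form a product of two even
involutions, and one uses (3) and again a dihedral group.
The values at the odd permutations of this kind are also almost equal, to `c'` say: split off a
transposition `z` and decompose `θ` under `⟨z⟩`. So the multiplicity `⟨θ|_U, ψ⟩` is `g ψ(1) / |U|` up to
an error of at most `12 g ψ(1) / 2 ^ m` for all `ψ ≠ 1, sign`.
-/

set_option autoImplicit false

namespace Pool.Agent.Results.MP_d2121a_nt.SmallSubgroups

open Polynomial Equiv Pool.Agent.H541R3.ART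

/-- `a χ = ⟨χ|_U, ψ⟩` for the irreducible characters `χ` of `G` -/
def IsMult {G : Type} [Group G] (U : Subgroup G) (ψ : U → ℂ) (a : (G → ℂ) → ℕ) : Prop :=
  ∀ χ ∈ Irr G, ∑ᶠ u : U, χ u * ψ u⁻¹ = (a χ : ℂ) * (Nat.card U : ℂ)

/-- the order at `s₀` of the product of the `L χ ^ (a χ)` -/
noncomputable def orderOfL {G : Type} [Group G] {s₀ : ℂ} (A : ArtinData G s₀) (a : (G → ℂ) → ℕ) :
    WithTop ℤ := meromorphicOrderAt (fun s => ∏ᶠ χ ∈ Irr G, A.L χ s ^ a χ) s₀

/-- `ψ` is the restriction of the sign character `σ` of `B` to the subgroup `U` -/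
def IsRestr {G : Type} [Group G] {B : Subgroup G} (σ : B →* ℤˣ) {U : Subgroup G} (hU : U ≤ B)
    (ψ : U → ℂ) : Prop := ∀ u : U, ψ u = ((σ (Subgroup.inclusion hU u) : ℤ) : ℂ)

/-- Let `E/K` be Galois with group `G`, and let `B` be a subgroup of `G` with a sign character `σ`.
For all points `s₀` and all functions with the formal properties of the Artin L-functions of `E/K`
near `s₀` there is a number `R ≥ 0` such that for all subgroups `U` of `B` and all irreducible
characters `ψ` of `U` the L-function `L(s, ψ)` of `ψ` (which is the product of the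
`L χ ^ ⟨χ|_U, ψ⟩`) is holomorphic at `s₀`, and if `ψ ≠ 1` and `ψ` is not the restriction of `σ`, then
its order `n` at `s₀` satisfies `(1 - ε) R ψ(1) ≤ n |U| ≤ (1 + ε) R ψ(1)`. -/
def ArtinConjectureFor {G : Type} [Group G] (B : Subgroup G) (σ : B →* ℤˣ) (ε : ℝ) : Prop :=
  ∀ (s₀ : ℂ) (A : ArtinData G s₀), ∃ R : ℝ, 0 ≤ R ∧
    ∀ (U : Subgroup G) (hU : U ≤ B), ∀ ψ ∈ Irr U, ∀ a, IsMult U ψ a →
      ∃ n d : ℕ, orderOfL A a = (n : WithTop ℤ) ∧ ψ 1 = d ∧
        (ψ ≠ 1 → ¬ IsRestr σ hU ψ → |(n : ℝ) * Nat.card U - R * d| ≤ ε * (R * d))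

/-- The subgroup `B` of `Sym(n)` is small with respect to `n`: all its elements have order at most
`D`, `(16 D 2 ^ m) ^ (2 D + 2) + 2 ≤ n`, and
`16 * 2 ^ m * (number of fixed points of b) + 2 ≤ n` for all `b ≠ 1` in `B`. -/
def IsSmall (m D : ℕ) {n : ℕ} (B : Subgroup (Perm (Fin n))) : Prop :=
  2 ≤ D ∧ (16 * D * 2 ^ m) ^ (2 * D + 2) + 2 ≤ n ∧ (∀ b ∈ B, orderOf b ≤ D) ∧
    ∀ b ∈ B, b ≠ 1 → 16 * 2 ^ m * Nat.card {i // b i = i} + 2 ≤ n

/-- `σ` is the sign on the image of `B` -/
def IsSign {n : ℕ} {G : Type} [Group G] (f : Perm (Fin n) →* G) (B : Subgroup (Perm (Fin n)))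
    (σ : B.map f →* ℤˣ) : Prop := ∀ b ∈ B, ∀ h : f b ∈ B.map f, σ ⟨f b, h⟩ = Perm.sign b

/-- For all embeddings `f` of `Sym(n)` in finite groups `G` (for example `G = Sym(n)`) the conclusion
of `ArtinConjectureFor` holds for the subgroup `f(B)` of `G`, where `σ` is the sign. -/
def ArtinForEmbeddings {n : ℕ} (B : Subgroup (Perm (Fin n))) (ε : ℝ) : Prop :=
  ∀ (G : Type) [Group G] [Finite G] (f : Perm (Fin n) →* G), Function.Injective f →
    ∃ σ : B.map f →* ℤˣ, IsSign f B σ ∧ ArtinConjectureFor (B.map f) σ ε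

/-- There is an embedding `ι` of `H` in `Alt(n)` such that the conclusion of `ArtinForEmbeddings`
holds for the subgroup `ι(H)` of `Sym(n)`. -/
def InAlt (H : Type) [Group H] (ε : ℝ) (n : ℕ) : Prop :=
  ∃ ι : H →* Perm (Fin n), Function.Injective ι ∧ (∀ h, Perm.sign (ι h) = 1) ∧
    ArtinForEmbeddings ι.range ε

/-- the conclusion of `ArtinConjectureFor` with `σ = 1` -/
def ArtinConjectureForOne {G : Type} [Group G] (B : Subgroup G) (ε : ℝ) : Prop :=
  ArtinConjectureFor B 1 ε

/-- If `E` is the splitting field of `X ^ p - X - 1` over `ℚ`, then there is a subfield `F` of `E` such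
that `E/F` is Galois, `Gal(E/F)` is isomorphic to `H`, and the conclusion of `ArtinConjectureFor` holds
for the subgroup `Gal(E/F)` of `Gal(E/ℚ)`, with `σ = 1`. -/
def InField (H : Type) [Group H] (ε : ℝ) (p : ℕ) : Prop :=
  ∀ (E : Type) [Field E] [NumberField E] [IsGalois ℚ E],
    IsSplittingField ℚ E (X ^ p - X - 1 : ℚ[X]) →
    ∃ F : IntermediateField ℚ E, IsGalois F E ∧ Nonempty ((E ≃ₐ[F] E) ≃* H) ∧
      ArtinConjectureForOne F.fixingSubgroup ε

lemma main {m D n : ℕ} {B : Subgroup (Perm (Fin n))} (hB : IsSmall m D B)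
    {ε : ℝ} (hε : ε ≤ 1) (hm : 12 * (Nat.card B : ℝ) ≤ ε * 2 ^ m) : ArtinForEmbeddings B ε := by
  intro G _ _ f hf
  refine ⟨Pool.Agent.Run7.h588.EMB.sgnMap f hf B, fun b hb _ =>
    Pool.Agent.Run7.h588.EMB.sgnMap_apply f hf B ⟨b, hb⟩, fun s₀ A => ?_⟩
  have h1 : Nat.card (B.map f) = Nat.card B :=
    (Nat.card_congr (B.equivMapOfInjective f hf).toEquiv).symm
  have h2 : (0 : ℝ) < 2 ^ m := by positivity
  obtain ⟨R, hR, h⟩ := Pool.Agent.Run7.h588.EMB.artin_of_almostS A (by positivity)
    (Pool.Agent.Run7.h588.EMB.almostS hB.1 hB.2.1 f hf B hB.2.2.1 hB.2.2.2 A.isHeilbronn) hε (by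
      rw [h1, div_mul_eq_mul_div, div_le_iff₀ h2]
      exact hm)
  refine ⟨R, hR, fun U hU ψ hψ a ha => ?_⟩
  obtain ⟨n, d, h3, h4, h5⟩ := h U hU ψ hψ a ha
  refine ⟨n, d, h3, h4, fun h6 h7 => h5 h6 ?_⟩
  by_contra h8
  exact h7 fun u => by
    by_contra h9
    exact h8 ⟨u, h9⟩

/-- (1) Let `B` be a subgroup of `Sym(n)` which is small, let `ε ≤ 1` and `12 |B| ≤ ε 2 ^ m`. Then the
conclusion of `ArtinForEmbeddings` holds for `B`.

(2) Let `H` be a finite group and `0 < ε`. Then for all large `n` there is an embedding `ι` of `H` in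
`Alt(n)` such that the conclusion of `ArtinForEmbeddings` holds for the subgroup `ι(H)` of `Sym(n)`.

(3) Moreover, if `p` is a large prime and `E` is the splitting field of `X ^ p - X - 1` over `ℚ`, then
there is a subfield `F` of `E` such that `E/F` is Galois, `Gal(E/F)` is isomorphic to `H`, and the
conclusion of `ArtinConjectureFor` holds for the subgroup `Gal(E/F)` of `Gal(E/ℚ)`, with `σ = 1`. -/
theorem result :
    (∀ (m D n : ℕ) (B : Subgroup (Perm (Fin n))) (ε : ℝ), IsSmall m D B → ε ≤ 1 →
      12 * (Nat.card B : ℝ) ≤ ε * 2 ^ m → ArtinForEmbeddings B ε) ∧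
    (∀ (H : Type) [Group H] [Finite H] (ε : ℝ), 0 < ε → ∃ N : ℕ,
      (∀ n : ℕ, N ≤ n → InAlt H ε n) ∧ ∀ p : ℕ, p.Prime → N ≤ p → InField H ε p) := by
  constructor
  · intro m D n B ε hB hε hm
    exact main hB hε hm
  · intro H _ _ ε hε
    have hε' : 0 < min ε 1 := lt_min hε one_pos
    obtain ⟨m, hm⟩ := pow_unbounded_of_one_lt (12 * (Nat.card H : ℝ) / min ε 1) one_lt_two
    rw [div_lt_iff₀ hε'] at hm
    obtain ⟨N, D, hD, hN⟩ := Pool.Agent.Run7.h588.EMB.exists_emb_all H m
    have key : ∀ n : ℕ, N ≤ n → ∃ ι : H →* Perm (Fin n), Function.Injective ι ∧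
        (∀ h, Perm.sign (ι h) = 1) ∧ ArtinForEmbeddings ι.range ε := by
      intro n hn
      obtain ⟨h1, ι, h2, h3, h4, h5⟩ := hN n hn
      refine ⟨ι, h2, h3, fun G _ _ f hf => ?_⟩
      have h6 : Nat.card ι.range = Nat.card H :=
        (Nat.card_congr (MonoidHom.ofInjective h2).toEquiv).symm
      obtain ⟨σ, h7, h8⟩ := main (B := ι.range) (m := m) (D := D) ⟨hD, h1, h4, h5⟩
        (min_le_right ε 1) (by rw [h6]; linarith) G f hf
      refine ⟨σ, h7, fun s₀ A => ?_⟩
      obtain ⟨R, hR, h10⟩ := h8 s₀ A
      refine ⟨R, hR, fun U hU ψ hψ a ha => ?_⟩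
      obtain ⟨n, d, h11, h12, h13⟩ := h10 U hU ψ hψ a ha
      refine ⟨n, d, h11, h12, fun hψ1 hψ2 => (h13 hψ1 hψ2).trans ?_⟩
      exact mul_le_mul_of_nonneg_right (min_le_left ε 1) (mul_nonneg hR (Nat.cast_nonneg _))
    refine ⟨N, key, ?_⟩
    intro p hp hNp E _ _ _ hs
    obtain ⟨ι, hι, h3, h⟩ := key p hNp
    obtain ⟨f, hf⟩ := Pool.Agent.Run7.h588.EMB.selmer_emb hp le_rfl E hs
    obtain ⟨F, h1, h2, h4⟩ := Pool.Agent.Run7.h588.EMB.field_of_subgroup E (f.comp ι) (hf.comp hι)
    refine ⟨F, h1, h4, ?_⟩
    obtain ⟨σ, h7, h8⟩ := h (E ≃ₐ[ℚ] E) f hf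
    have h9 : σ = 1 := by
      apply MonoidHom.ext
      rintro ⟨_, _, ⟨h, rfl⟩, rfl⟩
      exact (h7 (ι h) ⟨h, rfl⟩ _).trans (h3 h)
    rw [h9, ← MonoidHom.range_comp, ← h2] at h8
    exact h8

end Pool.Agent.Results.MP_d2121a_nt.SmallSubgroups
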